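import Pool.Agent.R617.LR.Poly

set_option autoImplicit false

/-!
# Two families of graphs
-/

namespace Pool.Agent.R617.LR

open Finset
open Pool.Agent.R562.QH

/-! ### A clique joined to the other vertices -/

/-- the pairs of vertices which are at least `u` -/
abbrev Free (n u : ℕ) : Type := {e : Pairs n // u ≤ e.1.1.1}

/-- all edges that meet the first `u` vertices, and the edges in `z` -/
def join (n u : ℕ) (z : Free n u → Bool) : Pairs n → Bool :=
  fun e => if h : u ≤ e.1.1.1 then z ⟨e, h⟩ else true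

/-- the bit of `z` on which the bit `e` of `join n u z` depends -/
def joinIdx (n u : ℕ) : Pairs n → Option (Free n u) :=
  fun e => if h : u ≤ e.1.1.1 then some ⟨e, h⟩ else none

lemma join_dep {n u : ℕ} (i : Pairs n) (l : Free n u) (z z' : Free n u → Bool)
    (h : ∀ l', l' ≠ l → z' l' = z l') (hi : joinIdx n u i ≠ some l) :
    join n u z' i = join n u z i := by
  unfold join
  unfold joinIdx at hi
  split_ifs with hu
  · rw [dif_pos hu] at hi
    exact h _ fun h2 => hi (congrArg some h2)
  · rfl

lemma join_free {n u : ℕ} : (graph (join n u fun _ => false)).CliqueFree (u + 2) := by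
  intro S hS
  have hcard := hS.card_eq
  have h1 : (S.filter fun i => i.1 < u).card ≤ u := by
    have h2 : (S.filter fun i => i.1 < u).card ≤ (range u).card := by
      refine card_le_card_of_injOn (fun i => i.1) ?_ ?_
      · intro i hi
        exact mem_coe.2 (mem_range.2 (mem_filter.1 (mem_coe.1 hi)).2)
      · intro i _ j _ hij
        exact Fin.ext hij
    rwa [card_range] at h2
  have h2 := card_filter_add_card_filter_not (s := S) (fun i => i.1 < u)
  have h3 : 1 < (S.filter fun i => ¬ i.1 < u).card := by omega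
  obtain ⟨a, ha, b, hb, hab⟩ := one_lt_card.1 h3
  rw [mem_filter] at ha hb
  rcases hS.isClique (mem_coe.2 ha.1) (mem_coe.2 hb.1) hab with ⟨h, h4⟩ | ⟨h, h4⟩
  · unfold join at h4
    rw [dif_pos (by simpa using ha.2)] at h4
    exact absurd h4 (by simp)
  · unfold join at h4
    rw [dif_pos (by simpa using hb.2)] at h4
    exact absurd h4 (by simp)

lemma join_clique {n u : ℕ} (z : Free n u → Bool) (l : Free n u) (hl : z l = true) :
    ¬ (graph (join n u z)).CliqueFree (u + 2) := by
  classical
  obtain ⟨⟨⟨a, b⟩, hab⟩, hu⟩ := l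
  have hab' : a < b := hab
  have hu' : u ≤ a.1 := hu
  have hn : u ≤ n := by
    have := a.2
    omega
  set S : Finset (Fin n) := insert a (insert b (univ.filter fun i => i.1 < u)) with hS
  have hcard0 : (univ.filter fun i : Fin n => i.1 < u).card = u := by
    have : (univ.filter fun i : Fin n => i.1 < u) =
        univ.image (fun j : Fin u => (⟨j.1, lt_of_lt_of_le j.2 hn⟩ : Fin n)) := by
      ext i
      simp only [mem_filter, mem_univ, true_and, mem_image]
      constructor
      · intro h
        exact ⟨⟨i.1, h⟩, rfl⟩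
      · rintro ⟨j, rfl⟩
        exact j.2
    rw [this, card_image_of_injective]
    · simp
    · intro i j h
      exact Fin.ext (by simpa [Fin.ext_iff] using h)
  have hb1 : b ∉ (univ.filter fun i : Fin n => i.1 < u) := by
    rw [mem_filter]
    have : a.1 < b.1 := hab'
    rintro ⟨-, h⟩
    omega
  have ha1 : a ∉ insert b (univ.filter fun i : Fin n => i.1 < u) := by
    rw [mem_insert, mem_filter]
    rintro (h | ⟨-, h⟩)
    · exact absurd h (ne_of_lt hab')
    · omega
  have hSc : S.card = u + 2 := by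
    rw [hS, card_insert_of_notMem ha1, card_insert_of_notMem hb1, hcard0]
  have key : ∀ i ∈ S, ∀ j ∈ S, ∀ h : i < j, join n u z ⟨(i, j), h⟩ = true := by
    intro i hi j hj hij
    unfold join
    by_cases h : u ≤ i.1
    · rw [dif_pos h]
      have hj' : u ≤ j.1 := le_trans h (le_of_lt hij)
      have hi2 : i = a ∨ i = b := by
        rw [hS, mem_insert, mem_insert, mem_filter] at hi
        rcases hi with h2 | h2 | ⟨-, h2⟩
        · exact Or.inl h2
        · exact Or.inr h2
        · omega
      have hj2 : j = a ∨ j = b := by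
        rw [hS, mem_insert, mem_insert, mem_filter] at hj
        rcases hj with h2 | h2 | ⟨-, h2⟩
        · exact Or.inl h2
        · exact Or.inr h2
        · omega
      rcases hi2 with rfl | rfl
      · rcases hj2 with rfl | rfl
        · exact absurd hij (lt_irrefl _)
        · exact hl
      · rcases hj2 with rfl | rfl
        · exact absurd (hij.trans hab') (lt_irrefl _)
        · exact absurd hij (lt_irrefl _)
    · rw [dif_neg h]
  intro hfree
  refine hfree S ⟨?_, hSc⟩
  intro i hi j hj hij
  rcases lt_or_gt_of_ne hij with h | h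
  · exact Or.inl ⟨h, key i hi j hj h⟩
  · exact Or.inr ⟨h, key j hj i hi h⟩

lemma card_pairs_ge (n u : ℕ) : (n - u).choose 2 ≤ Fintype.card (Free n u) := by
  classical
  have h0 : (univ.filter fun i : Fin n => u ≤ i.1).card = n - u := by
    have h1 := card_filter_add_card_filter_not (s := (univ : Finset (Fin n))) (fun i => u ≤ i.1)
    rw [card_univ, Fintype.card_fin] at h1
    have h2 : (univ.filter fun i : Fin n => ¬ u ≤ i.1).card = min n u := by
      rcases le_total u n with hn | hn
      · rw [min_eq_right hn]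
        have : (univ.filter fun i : Fin n => ¬ u ≤ i.1) =
            univ.image (fun j : Fin u => (⟨j.1, lt_of_lt_of_le j.2 hn⟩ : Fin n)) := by
          ext i
          simp only [mem_filter, mem_univ, true_and, mem_image]
          constructor
          · intro h
            exact ⟨⟨i.1, by omega⟩, rfl⟩
          · rintro ⟨j, rfl⟩
            simp
        rw [this, card_image_of_injective]
        · simp
        · intro i j h
          exact Fin.ext (by simpa [Fin.ext_iff] using h)
      · rw [min_eq_left hn, filter_true_of_mem, card_univ, Fintype.card_fin]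
        intro i _
        have := i.2
        omega
    rw [h2] at h1
    rcases le_total u n with hn | hn
    · rw [min_eq_right hn] at h1
      omega
    · rw [min_eq_left hn] at h1
      omega
  rw [← h0, ← card_powersetCard]
  have h1 : powersetCard 2 (univ.filter fun i : Fin n => u ≤ i.1) ⊆
      univ.image (fun l : Free n u => ({l.1.1.1, l.1.1.2} : Finset (Fin n))) := by
    intro T hT
    rw [mem_powersetCard] at hT
    obtain ⟨a, b, hab, rfl⟩ := card_eq_two.1 hT.2
    have ha := (mem_filter.1 (hT.1 (mem_insert_self _ _))).2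
    have hb := (mem_filter.1 (hT.1 (mem_insert_of_mem (mem_singleton_self _)))).2
    rw [mem_image]
    rcases lt_or_gt_of_ne hab with h | h
    · exact ⟨⟨⟨(a, b), h⟩, ha⟩, mem_univ _, rfl⟩
    · exact ⟨⟨⟨(b, a), h⟩, hb⟩, mem_univ _, pair_comm _ _⟩
  refine (card_le_card h1).trans ?_
  refine card_image_le.trans ?_
  rw [card_univ]

/-! ### Lines in a grid -/

/-- the vertex `a * p + b` is the point `(a, b)` of the grid -/
def line (n s p : ℕ) (l : ZMod p × ZMod p) : Finset (Fin n) :=
  univ.filter fun u => u.1 / p < s ∧ ((u.1 % p : ℕ) : ZMod p) = l.1 * ((u.1 / p : ℕ) : ZMod p) + l.2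

lemma line_unique {n s p : ℕ} [hp : Fact p.Prime] (hsp : s ≤ p) {a b : Fin n} (hab : a ≠ b)
    {l l' : ZMod p × ZMod p} (ha : a ∈ line n s p l) (hb : b ∈ line n s p l)
    (ha' : a ∈ line n s p l') (hb' : b ∈ line n s p l') : l = l' := by
  unfold line at ha hb ha' hb'
  rw [mem_filter] at ha hb ha' hb'
  have hp0 : 0 < p := hp.out.pos
  have hne : ((a.1 / p : ℕ) : ZMod p) - ((b.1 / p : ℕ) : ZMod p) ≠ 0 := by
    intro h
    have h1 : ((a.1 / p : ℕ) : ZMod p) = ((b.1 / p : ℕ) : ZMod p) := sub_eq_zero.1 h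
    have h2 : a.1 / p = b.1 / p := by
      rw [ZMod.natCast_eq_natCast_iff'] at h1
      rwa [Nat.mod_eq_of_lt (lt_of_lt_of_le ha.2.1 hsp),
        Nat.mod_eq_of_lt (lt_of_lt_of_le hb.2.1 hsp)] at h1
    have h3 : ((a.1 % p : ℕ) : ZMod p) = ((b.1 % p : ℕ) : ZMod p) := by
      rw [ha.2.2, hb.2.2, h1]
    have h4 : a.1 % p = b.1 % p := by
      rw [ZMod.natCast_eq_natCast_iff'] at h3
      rwa [Nat.mod_mod, Nat.mod_mod] at h3
    apply hab
    apply Fin.ext
    rw [← Nat.div_add_mod a.1 p, ← Nat.div_add_mod b.1 p, h2, h4]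
  have h1 : l.1 = l'.1 := by
    have e1 : l.1 * (((a.1 / p : ℕ) : ZMod p) - ((b.1 / p : ℕ) : ZMod p)) =
        l'.1 * (((a.1 / p : ℕ) : ZMod p) - ((b.1 / p : ℕ) : ZMod p)) := by
      have e2 := ha.2.2
      have e3 := hb.2.2
      have e4 := ha'.2.2
      have e5 := hb'.2.2
      linear_combination e4 - e5 - e2 + e3
    exact mul_right_cancel₀ hne e1
  have h2 : l.2 = l'.2 := by
    have e2 := ha.2.2
    have e4 := ha'.2.2
    rw [h1] at e2
    linear_combination e4 - e2
  exact Prod.ext h1 h2

lemma card_line {n s p : ℕ} [hp : Fact p.Prime] (hn : s * p ≤ n) (l : ZMod p × ZMod p) :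
    s ≤ (line n s p l).card := by
  have hp0 : 0 < p := hp.out.pos
  have hlt : ∀ a : Fin s, a.1 * p + (l.1 * (a.1 : ZMod p) + l.2).val < n := by
    intro a
    have h1 : (l.1 * (a.1 : ZMod p) + l.2).val < p := ZMod.val_lt _
    have h2 : (a.1 + 1) * p ≤ s * p := Nat.mul_le_mul_right _ a.2
    calc a.1 * p + (l.1 * (a.1 : ZMod p) + l.2).val < a.1 * p + p := by omega
      _ = (a.1 + 1) * p := by ring
      _ ≤ n := h2.trans hn
  have hdiv : ∀ a : Fin s, (a.1 * p + (l.1 * (a.1 : ZMod p) + l.2).val) / p = a.1 := by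
    intro a
    rw [mul_comm, Nat.mul_add_div hp0, Nat.div_eq_of_lt (ZMod.val_lt _), add_zero]
  have hmod : ∀ a : Fin s, (a.1 * p + (l.1 * (a.1 : ZMod p) + l.2).val) % p =
      (l.1 * (a.1 : ZMod p) + l.2).val := by
    intro a
    rw [mul_comm, Nat.mul_add_mod, Nat.mod_eq_of_lt (ZMod.val_lt _)]
  have h1 : (univ : Finset (Fin s)).card ≤ (line n s p l).card := by
    refine card_le_card_of_injOn
      (fun a => (⟨a.1 * p + (l.1 * (a.1 : ZMod p) + l.2).val, hlt a⟩ : Fin n)) ?_ ?_
    · intro a _
      unfold line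
      refine mem_coe.2 (mem_filter.2 ⟨mem_univ _, ?_, ?_⟩)
      · show (a.1 * p + (l.1 * (a.1 : ZMod p) + l.2).val) / p < s
        rw [hdiv]
        exact a.2
      · show (((a.1 * p + (l.1 * (a.1 : ZMod p) + l.2).val) % p : ℕ) : ZMod p) =
          l.1 * (((a.1 * p + (l.1 * (a.1 : ZMod p) + l.2).val) / p : ℕ) : ZMod p) + l.2
        rw [hdiv, hmod, ZMod.natCast_val, ZMod.cast_id', id]
    · intro a _ b _ hab
      have h2 : a.1 * p + (l.1 * (a.1 : ZMod p) + l.2).val =
          b.1 * p + (l.1 * (b.1 : ZMod p) + l.2).val := congrArg Fin.val hab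
      apply Fin.ext
      rw [← hdiv a, ← hdiv b, h2]
  rwa [card_univ, Fintype.card_fin] at h1

open scoped Classical in
/-- the union of the lines in `z` -/
noncomputable def lines (n s p : ℕ) (z : ZMod p × ZMod p → Bool) : Pairs n → Bool :=
  fun e => decide (∃ l, z l = true ∧ e.1.1 ∈ line n s p l ∧ e.1.2 ∈ line n s p l)

open scoped Classical in
/-- the bit of `z` on which the bit `e` of `lines n s p z` depends -/
noncomputable def lineIdx (n s p : ℕ) : Pairs n → Option (ZMod p × ZMod p) :=
  fun e => if h : ∃ l, e.1.1 ∈ line n s p l ∧ e.1.2 ∈ line n s p l then some h.choose else none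

lemma lines_iff {n s p : ℕ} [hp : Fact p.Prime] (hsp : s ≤ p) (z : ZMod p × ZMod p → Bool)
    (e : Pairs n) : lines n s p z e = true ↔ ∃ l, lineIdx n s p e = some l ∧ z l = true := by
  unfold lines lineIdx
  simp only [decide_eq_true_eq]
  constructor
  · rintro ⟨l, h1, h2, h3⟩
    have h : ∃ l, e.1.1 ∈ line n s p l ∧ e.1.2 ∈ line n s p l := ⟨l, h2, h3⟩
    rw [dif_pos h]
    have h4 := h.choose_spec
    have h5 := line_unique hsp (ne_of_lt e.2) h4.1 h4.2 h2 h3
    exact ⟨l, congrArg some h5, h1⟩
  · rintro ⟨l, h1, h2⟩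
    split_ifs at h1 with h
    have h3 : h.choose = l := Option.some.inj h1
    exact ⟨l, h2, h3 ▸ h.choose_spec.1, h3 ▸ h.choose_spec.2⟩

lemma lines_dep {n s p : ℕ} [hp : Fact p.Prime] (hsp : s ≤ p) (i : Pairs n)
    (l : ZMod p × ZMod p) (z z' : ZMod p × ZMod p → Bool)
    (h : ∀ l', l' ≠ l → z' l' = z l') (hi : lineIdx n s p i ≠ some l) :
    lines n s p z' i = lines n s p z i := by
  rw [Bool.eq_iff_iff, lines_iff hsp, lines_iff hsp]
  constructor
  · rintro ⟨l', h1, h2⟩
    refine ⟨l', h1, ?_⟩
    rw [← h l' fun h3 => hi (h3 ▸ h1)]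
    exact h2
  · rintro ⟨l', h1, h2⟩
    refine ⟨l', h1, ?_⟩
    rw [h l' fun h3 => hi (h3 ▸ h1)]
    exact h2

lemma lines_empty {n s p : ℕ} : lines n s p (fun _ => false) = empt n := by
  funext e
  unfold lines empt
  simp

lemma lines_clique {n s p : ℕ} [hp : Fact p.Prime] (hn : s * p ≤ n)
    (z : ZMod p × ZMod p → Bool) (l : ZMod p × ZMod p) (hl : z l = true) :
    ¬ (graph (lines n s p z)).CliqueFree s := by
  intro hfree
  have h1 := hfree.mono (card_line hn l)
  refine h1 (line n s p l) ⟨?_, rfl⟩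
  intro i hi j hj hij
  rcases lt_or_gt_of_ne hij with h | h
  · refine Or.inl ⟨h, ?_⟩
    unfold lines
    simp only [decide_eq_true_eq]
    exact ⟨l, hl, hi, hj⟩
  · refine Or.inr ⟨h, ?_⟩
    unfold lines
    simp only [decide_eq_true_eq]
    exact ⟨l, hl, hj, hi⟩

end Pool.Agent.R617.LR
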