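import Pool.Agent.R562.QH.Fin

set_option autoImplicit false

/-!
# Reductions whose output bits are found by evaluating polynomials of low degree

An output bit (is the clause `c` in the formula of this question?) is computed by adaptively evaluating
polynomials over a field in the input bits. The questions may be adaptive as well. The computations
are otherwise unrestricted (in particular, there is no bound for the size of the trees).
-/

namespace Pool.Agent.R617.LR

open Finset
open Pool.Agent.R562.QH

/-- The value of a polynomial on a string of bits. -/
noncomputable def value {K I : Type} [CommSemiring K] (P : MvPolynomial I K) (x : I → Bool) : K :=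
  MvPolynomial.eval (fun i => if x i = true then 1 else 0) P

/-- Decision trees whose queries are the values of polynomials: an inner node evaluates a polynomial
and branches according to its value. -/
inductive PTree (K I : Type) [CommSemiring K] : Type
  | leaf (b : Bool) : PTree K I
  | node (P : MvPolynomial I K) (t : K → PTree K I) : PTree K I

/-- The output of a tree. -/
noncomputable def PTree.eval {K I : Type} [CommSemiring K] : PTree K I → (I → Bool) → Bool
  | leaf b, _ => b
  | node P t, x => (t (value P x)).eval x

/-- All evaluated polynomials take at most `q` values on strings of bits, and on every path of the
tree the sum of their total degrees is at most `D`. -/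
def PTree.Bounded {K I : Type} [CommSemiring K] (q : ℕ) : PTree K I → ℕ → Prop
  | leaf _, _ => True
  | node P t, D => (Set.range (value P)).ncard ≤ q ∧ P.totalDegree ≤ D ∧
      ∀ a, (t a).Bounded q (D - P.totalDegree)

/-- Turing reductions to the satisfiability of formulas in `v` variables with at most `d` literals per
clause: an inner node asks whether the formula is satisfiable whose clauses are the `c` for which the
tree `φ c` has the output `true`, and branches according to the answer. -/
inductive Reduction (K I : Type) [CommSemiring K] (v d : ℕ) : Type
  | answer (b : Bool) : Reduction K I v d
  | ask (φ : Clause v d → PTree K I) (t : Bool → Reduction K I v d) : Reduction K I v d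

open scoped Classical in
/-- The output of a reduction. -/
noncomputable def Reduction.eval {K I : Type} [CommSemiring K] {v d : ℕ} :
    Reduction K I v d → (I → Bool) → Bool
  | answer b, _ => b
  | ask φ t, x => (t (decide (Sat fun c => (φ c).eval x))).eval x

/-- At most `Q` questions are asked, and the trees for the clauses are bounded by `q` and `D`. -/
def Reduction.Bounded {K I : Type} [CommSemiring K] {v d : ℕ} (q D : ℕ) :
    Reduction K I v d → ℕ → Prop
  | answer _, _ => True
  | ask _ _, 0 => False
  | ask φ t, Q + 1 => (∀ c, (φ c).Bounded q D) ∧ ∀ b, (t b).Bounded q D Q

/-- Random reductions which always accept graphs with a clique of `s` vertices and which reject each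
graph without clique of `k` vertices for at least one random choice `ω`, that is, with positive
probability. -/
def OneSided {K : Type} [CommSemiring K] {n v d : ℕ} {Ω : Type} (s k : ℕ)
    (A : Ω → Reduction K (Pairs n) v d) : Prop :=
  (∀ ω x, ¬ (graph x).CliqueFree s → (A ω).eval x = true) ∧
    ∀ x, (graph x).CliqueFree k → ∃ ω, (A ω).eval x = false

end Pool.Agent.R617.LR
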