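import Pool.Agent.R617.LR.Model

set_option autoImplicit false

/-!
# A polynomial which vanishes at all points of a cube but one has high degree
-/

namespace Pool.Agent.R617.LR

open Finset
open Pool.Agent.R562.QH

section alt

variable {K I L : Type} [Field K] [Fintype L] [DecidableEq L]

/-- the parity of the number of ones, as a sign -/
def sgn (K : Type) [Field K] {L : Type} [Fintype L] (z : L → Bool) : K :=
  ∏ l, if z l = true then -1 else 1

/-- flipping a bit -/
def flip (l : L) (z : L → Bool) : L → Bool := Function.update z l (!z l)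

lemma flip_flip (l : L) (z : L → Bool) : flip l (flip l z) = z := by
  unfold flip
  rw [Function.update_idem, Function.update_self, Bool.not_not, Function.update_eq_self]

lemma flip_ne (l : L) (z : L → Bool) : flip l z ≠ z := by
  intro h
  have := congrFun h l
  simp [flip] at this

lemma sgn_flip (l : L) (z : L → Bool) : sgn K (flip l z) = - sgn K z := by
  unfold sgn
  rw [← mul_prod_erase univ _ (mem_univ l), ← mul_prod_erase univ _ (mem_univ l), ← neg_mul]
  congr 1
  · unfold flip
    rw [Function.update_self]
    cases z l <;> simp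
  · refine prod_congr rfl fun j hj => ?_
    unfold flip
    rw [Function.update_of_ne (ne_of_mem_erase hj)]

lemma alt_zero (l : L) (F : (L → Bool) → K) (hF : ∀ z, F (flip l z) = F z) :
    ∑ z, sgn K z * F z = 0 := by
  refine sum_involution (fun z _ => flip l z) ?_ ?_ (fun _ _ => mem_univ _) ?_
  · intro z _
    rw [hF, sgn_flip]
    ring
  · intro z _ _
    exact flip_ne l z
  · intro z _
    exact flip_flip l z

/-- **Degree bound.** If the points `X z` of a cube are such that the coordinate `i` depends on the bit
`β i` of `z` only, then a polynomial of degree less than the number of bits has alternating sum `0`. -/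
lemma alt_poly (P : MvPolynomial I K) (hP : P.totalDegree < Fintype.card L)
    (X : (L → Bool) → I → Bool) (β : I → Option L)
    (hX : ∀ i l z, β i ≠ some l → X (flip l z) i = X z i) :
    ∑ z, sgn K z * value P (X z) = 0 := by
  classical
  have h1 : ∀ z, sgn K z * value P (X z) = ∑ s ∈ P.support, P.coeff s *
      (sgn K z * ∏ i ∈ s.support, (if X z i = true then (1 : K) else 0) ^ s i) := by
    intro z
    unfold value
    rw [MvPolynomial.eval_eq, mul_sum]
    refine sum_congr rfl fun s _ => ?_
    ring
  simp only [h1]
  rw [sum_comm]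
  refine sum_eq_zero fun s hs => ?_
  rw [← mul_sum]
  have h2 : s.support.card < Fintype.card L := by
    refine lt_of_le_of_lt ?_ hP
    refine le_trans ?_ (MvPolynomial.le_totalDegree hs)
    unfold Finsupp.sum
    rw [card_eq_sum_ones]
    refine sum_le_sum fun i hi => ?_
    exact Nat.one_le_iff_ne_zero.2 (Finsupp.mem_support_iff.1 hi)
  obtain ⟨l, hl⟩ : ∃ l : L, some l ∉ s.support.image β := by
    by_contra hcon
    push Not at hcon
    have h3 : (univ.image (some : L → Option L)) ⊆ s.support.image β := by
      intro o ho
      obtain ⟨l, -, rfl⟩ := mem_image.1 ho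
      exact hcon l
    have h4 := card_le_card h3
    rw [card_image_of_injective _ (Option.some_injective L), card_univ] at h4
    exact absurd (h4.trans card_image_le) (by omega)
  have h5 := alt_zero (K := K) l
    (fun z => ∏ i ∈ s.support, (if X z i = true then (1 : K) else 0) ^ s i) (by
      intro z
      refine prod_congr rfl fun i hi => ?_
      rw [hX i l z]
      intro h
      exact hl (mem_image.2 ⟨i, hi, h⟩))
  rw [h5, mul_zero]

/-- a polynomial which vanishes at all points of a cube but one has high degree -/
lemma degree_ge (P : MvPolynomial I K)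
    (X : (L → Bool) → I → Bool) (β : I → Option L)
    (hX : ∀ i l z, β i ≠ some l → X (flip l z) i = X z i)
    (h0 : value P (X fun _ => false) ≠ 0)
    (h1 : ∀ z l, z l = true → value P (X z) = 0) : Fintype.card L ≤ P.totalDegree := by
  by_contra hcon
  push Not at hcon
  have h2 := alt_poly P hcon X β hX
  rw [sum_eq_single (fun _ => false)] at h2
  · rcases mul_eq_zero.1 h2 with h3 | h3
    · simp [sgn] at h3
    · exact h0 h3
  · intro z _ hz
    obtain ⟨l, hl⟩ : ∃ l, z l = true := by
      by_contra h
      push Not at h
      apply hz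
      funext l
      simpa using h l
    rw [h1 z l hl, mul_zero]
  · intro h
    exact absurd (mem_univ _) h

end alt

section cert

variable {K I : Type} [Field K] [Finite I]

/-- a polynomial which is different from zero exactly where `P` has the same value as in `x` -/
lemma exists_ind (q : ℕ) (P : MvPolynomial I K) (hq : (Set.range (value P)).ncard ≤ q)
    (x : I → Bool) : ∃ G : MvPolynomial I K, G.totalDegree ≤ (q - 1) * P.totalDegree ∧
      value G x ≠ 0 ∧ ∀ y, value G y ≠ 0 → value P y = value P x := by
  classical
  have hfin : (Set.range (value P)).Finite := Set.finite_range _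
  set V := hfin.toFinset with hV
  have hVq : V.card ≤ q := by
    rw [hV, ← Set.ncard_eq_toFinset_card _ hfin]
    exact hq
  have hmem : ∀ y, value P y ∈ V := by
    intro y
    rw [hV, Set.Finite.mem_toFinset]
    exact ⟨y, rfl⟩
  have hval : ∀ y, value (∏ a ∈ V.erase (value P x), (P - MvPolynomial.C a)) y =
      ∏ a ∈ V.erase (value P x), (value P y - a) := by
    intro y
    unfold value
    rw [map_prod]
    refine prod_congr rfl fun a _ => ?_
    rw [map_sub, MvPolynomial.eval_C]
  refine ⟨∏ a ∈ V.erase (value P x), (P - MvPolynomial.C a), ?_, ?_, ?_⟩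
  · refine (MvPolynomial.totalDegree_finsetProd _ _).trans ?_
    calc ∑ a ∈ V.erase (value P x), (P - MvPolynomial.C a).totalDegree
        ≤ ∑ _a ∈ V.erase (value P x), P.totalDegree := by
          refine sum_le_sum fun a _ => ?_
          refine (MvPolynomial.totalDegree_sub _ _).trans ?_
          simp
      _ = (V.card - 1) * P.totalDegree := by
          rw [sum_const, card_erase_of_mem (hmem x), smul_eq_mul]
      _ ≤ (q - 1) * P.totalDegree := Nat.mul_le_mul_right _ (by omega)
  · rw [hval, prod_ne_zero_iff]
    intro a ha h
    exact (mem_erase.1 ha).1 (sub_eq_zero.1 h).symm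
  · intro y hy
    rw [hval, prod_ne_zero_iff] at hy
    by_contra hne
    exact hy (value P y) (mem_erase.2 ⟨hne, hmem y⟩) (sub_self _)

lemma exists_tree (q : ℕ) (x : I → Bool) (T : PTree K I) : ∀ D : ℕ, T.Bounded q D →
    ∃ G : MvPolynomial I K, G.totalDegree ≤ (q - 1) * D ∧
      value G x ≠ 0 ∧ ∀ y, value G y ≠ 0 → T.eval y = T.eval x := by
  induction T with
  | leaf b =>
    intro D _
    refine ⟨1, by simp, by simp [value], fun y _ => rfl⟩
  | node P t ih =>
    intro D hD
    obtain ⟨h1, h2, h3⟩ := hD
    obtain ⟨G, hG1, hG2, hG3⟩ := exists_ind q P h1 x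
    obtain ⟨H, hH1, hH2, hH3⟩ := ih (value P x) (D - P.totalDegree) (h3 _)
    refine ⟨G * H, ?_, ?_, ?_⟩
    · refine (MvPolynomial.totalDegree_mul _ _).trans ?_
      calc G.totalDegree + H.totalDegree
          ≤ (q - 1) * P.totalDegree + (q - 1) * (D - P.totalDegree) := add_le_add hG1 hH1
        _ = (q - 1) * (P.totalDegree + (D - P.totalDegree)) := by ring
        _ = (q - 1) * D := by rw [Nat.add_sub_cancel' h2]
    · have : value (G * H) x = value G x * value H x := by simp [value]
      rw [this]
      exact mul_ne_zero hG2 hH2
    · intro y hy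
      have h4 : value (G * H) y = value G y * value H y := by simp [value]
      rw [h4] at hy
      have h5 := hG3 y (left_ne_zero_of_mul hy)
      have h6 := hH3 y (right_ne_zero_of_mul hy)
      show (t (value P y)).eval y = (t (value P x)).eval x
      rw [h5, h6]

lemma exists_red {v d : ℕ} (q D : ℕ) (x : I → Bool) (A : Reduction K I v d) :
    ∀ Q : ℕ, A.Bounded q D Q →
    ∃ G : MvPolynomial I K, G.totalDegree ≤ Q * ((2 * v + 1) ^ d * ((q - 1) * D)) ∧
      value G x ≠ 0 ∧ ∀ y, value G y ≠ 0 → A.eval y = A.eval x := by
  classical
  induction A with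
  | answer b =>
    intro Q _
    refine ⟨1, by simp, by simp [value], fun y _ => rfl⟩
  | ask φ t ih =>
    intro Q hQ
    cases Q with
    | zero => exact absurd hQ (by simp [Reduction.Bounded])
    | succ Q =>
      obtain ⟨h1, h2⟩ := hQ
      have h3 := fun c => exists_tree q x (φ c) D (h1 c)
      choose G hG1 hG2 hG3 using h3
      set b := decide (Sat fun c => (φ c).eval x) with hb
      obtain ⟨H, hH1, hH2, hH3⟩ := ih b Q (h2 b)
      have hv : ∀ y, value ((∏ c, G c) * H) y = (∏ c, value (G c) y) * value H y := by
        intro y
        simp [value]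
      refine ⟨(∏ c, G c) * H, ?_, ?_, ?_⟩
      · refine (MvPolynomial.totalDegree_mul _ _).trans ?_
        have h4 : (∏ c, G c).totalDegree ≤ (2 * v + 1) ^ d * ((q - 1) * D) := by
          refine (MvPolynomial.totalDegree_finsetProd _ _).trans ?_
          calc ∑ c, (G c).totalDegree ≤ ∑ _c : Clause v d, (q - 1) * D :=
                sum_le_sum fun c _ => hG1 c
            _ = (2 * v + 1) ^ d * ((q - 1) * D) := by
                rw [sum_const, card_univ, card_clause, smul_eq_mul]
        calc (∏ c, G c).totalDegree + H.totalDegree
            ≤ (2 * v + 1) ^ d * ((q - 1) * D) + Q * ((2 * v + 1) ^ d * ((q - 1) * D)) :=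
              add_le_add h4 hH1
          _ = (Q + 1) * ((2 * v + 1) ^ d * ((q - 1) * D)) := by ring
      · rw [hv]
        exact mul_ne_zero (prod_ne_zero_iff.2 fun c _ => hG2 c) hH2
      · intro y hy
        rw [hv] at hy
        have h5 := prod_ne_zero_iff.1 (left_ne_zero_of_mul hy)
        have h6 : (fun c => (φ c).eval y) = fun c => (φ c).eval x := by
          funext c
          exact hG3 c y (h5 c (mem_univ _))
        have h7 := hH3 y (right_ne_zero_of_mul hy)
        show (t (decide (Sat fun c => (φ c).eval y))).eval y =
          (t (decide (Sat fun c => (φ c).eval x))).eval x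
        rw [h6]
        exact h7

/-- **Main bound.** -/
theorem main {L : Type} [Fintype L] {v d : ℕ} (q D Q : ℕ) (A : Reduction K I v d)
    (hA : A.Bounded q D Q) (X : (L → Bool) → I → Bool) (β : I → Option L)
    (hX : ∀ i l z z', (∀ l', l' ≠ l → z' l' = z l') → β i ≠ some l → X z' i = X z i)
    (h0 : A.eval (X fun _ => false) = false)
    (h1 : ∀ z l, z l = true → A.eval (X z) = true) :
    Fintype.card L ≤ (q - 1) * (Q * (2 * v + 1) ^ d * D) := by
  classical
  obtain ⟨G, hG1, hG2, hG3⟩ := exists_red q D (X fun _ => false) A Q hA
  have h2 := degree_ge G X β (fun i l z h => hX i l z _ (fun l' hl' => by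
    unfold flip
    rw [Function.update_of_ne hl']) h) hG2 (by
      intro z l hz
      by_contra hne
      have h3 := hG3 _ hne
      rw [h0, h1 z l hz] at h3
      exact absurd h3 (by simp))
  calc Fintype.card L ≤ G.totalDegree := h2
    _ ≤ Q * ((2 * v + 1) ^ d * ((q - 1) * D)) := hG1
    _ = (q - 1) * (Q * (2 * v + 1) ^ d * D) := by ring

end cert

end Pool.Agent.R617.LR
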