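import Pool.Agent.R617.LR.Poly

set_option autoImplicit false

/-!
# Reductions of low degree with the other kind of error; deterministic reductions
-/

namespace Pool.Agent.R617.LR

open Finset
open Pool.Agent.R562.QH

section

variable {K : Type} [Field K] {n v d : ℕ}

/-- the question whether the value of the polynomial is not zero -/
noncomputable def nonzeroTree (K : Type) [Field K] {n : ℕ} (v d : ℕ) (P : MvPolynomial (Pairs n) K) :
    Clause v d → PTree K (Pairs n) := by
  classical
  exact fun _ => PTree.node P fun a => PTree.leaf (decide (a = 0))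

open scoped Classical in
lemma sat_nonzero (P : MvPolynomial (Pairs n) K) (x : Pairs n → Bool) :
    decide (Sat fun c => (nonzeroTree K v d P c).eval x) = decide (value P x ≠ 0) := by
  rw [decide_eq_decide]
  constructor
  · rintro ⟨α, hα⟩ h0
    obtain ⟨j, l, h1, -⟩ := hα (fun _ => none) (by
      simp [nonzeroTree, PTree.eval, h0])
    exact absurd h1 (by simp)
  · intro h
    refine ⟨fun _ => false, fun c hc => ?_⟩
    exfalso
    simp [nonzeroTree, PTree.eval, h] at hc

/-- accept if one of the polynomials is not zero -/
noncomputable def chain (K : Type) [Field K] {n : ℕ} (v d : ℕ) :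
    List (MvPolynomial (Pairs n) K) → Reduction K (Pairs n) v d
  | [] => Reduction.answer false
  | P :: l => Reduction.ask (nonzeroTree K v d P)
      (fun b => if b = true then Reduction.answer true else chain K v d l)

lemma chain_eval (l : List (MvPolynomial (Pairs n) K)) (x : Pairs n → Bool) :
    (chain K v d l).eval x = false ↔ ∀ P ∈ l, value P x = 0 := by
  classical
  induction l with
  | nil => simp [chain, Reduction.eval]
  | cons P l ih =>
    unfold chain Reduction.eval
    have h := sat_nonzero (v := v) (d := d) P x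
    rw [List.forall_mem_cons, ← ih]
    by_cases h0 : value P x = 0
    · have h1 : decide (Sat fun c => (nonzeroTree K v d P c).eval x) = false := by
        refine Eq.trans (by convert h) ?_
        simp [h0]
      simp only [h1]
      simp [h0]
    · have h1 : decide (Sat fun c => (nonzeroTree K v d P c).eval x) = true := by
        refine Eq.trans (by convert h) ?_
        simp [h0]
      simp only [h1]
      simp [h0, Reduction.eval]

lemma chain_bounded (q D : ℕ) (l : List (MvPolynomial (Pairs n) K))
    (hl : ∀ P ∈ l, (Set.range (value P)).ncard ≤ q ∧ P.totalDegree ≤ D) :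
    ∀ Q : ℕ, l.length ≤ Q → (chain K v d l).Bounded q D Q := by
  induction l with
  | nil => intro Q _; simp [chain, Reduction.Bounded]
  | cons P l ih =>
    intro Q hQ
    cases Q with
    | zero => simp at hQ
    | succ Q =>
      unfold chain Reduction.Bounded
      refine ⟨fun c => ?_, fun b => ?_⟩
      · have h1 := hl P (by simp)
        refine ⟨h1.1, h1.2, fun a => ?_⟩
        simp [PTree.Bounded]
      · cases b with
        | true => simp [Reduction.Bounded]
        | false => exact ih (fun P' hP' => hl P' (by simp [hP'])) Q (by simpa using hQ)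

/-- reading the bits of a list -/
noncomputable def readAll (K : Type) [Field K] {n : ℕ} (v d : ℕ)
    (F : (Pairs n → Bool) → Bool) : List (Pairs n) → (Pairs n → Bool) →
      Reduction K (Pairs n) v d
  | [], y => Reduction.answer (F y)
  | e :: l, y => Reduction.ask (nonzeroTree K v d (MvPolynomial.X e))
      (fun b => readAll K v d F l (Function.update y e b))

lemma value_X (e : Pairs n) (x : Pairs n → Bool) :
    value (MvPolynomial.X e : MvPolynomial (Pairs n) K) x = if x e = true then 1 else 0 := by
  simp [value]

lemma readAll_eval (F : (Pairs n → Bool) → Bool) (x : Pairs n → Bool) (l : List (Pairs n)) :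
    ∀ y, (readAll K v d F l y).eval x = F (fun e => if e ∈ l then x e else y e) := by
  classical
  induction l with
  | nil => intro y; simp [readAll, Reduction.eval]
  | cons e l ih =>
    intro y
    unfold readAll Reduction.eval
    have h := sat_nonzero (K := K) (v := v) (d := d) (MvPolynomial.X e) x
    have h1 : decide (Sat fun c => (nonzeroTree K v d (MvPolynomial.X e) c).eval x) = x e := by
      refine Eq.trans (by convert h) ?_
      rw [value_X]
      cases x e <;> simp
    simp only [h1]
    rw [ih]
    congr 1
    funext e'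
    by_cases h2 : e' = e
    · subst h2
      simp
    · simp [Function.update_of_ne h2, h2]

lemma readAll_bounded (F : (Pairs n → Bool) → Bool) (l : List (Pairs n)) :
    ∀ y, (readAll K v d F l y).Bounded 2 1 l.length := by
  classical
  induction l with
  | nil => intro y; simp [readAll, Reduction.Bounded]
  | cons e l ih =>
    intro y
    unfold readAll
    rw [List.length_cons]
    refine ⟨fun c => ⟨?_, ?_, fun a => ?_⟩, fun b => ih _⟩
    · have h1 : Set.range (value (MvPolynomial.X e : MvPolynomial (Pairs n) K)) ⊆
          (({0, 1} : Finset K) : Set K) := by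
        rintro _ ⟨x, rfl⟩
        rw [value_X]
        split_ifs <;> simp
      refine (Set.ncard_le_ncard h1 (Finset.finite_toSet _)).trans ?_
      rw [Set.ncard_coe_finset]
      exact card_le_two
    · rw [MvPolynomial.totalDegree_X]
    · simp [PTree.Bounded]

lemma card_Pairs (n : ℕ) : Fintype.card (Pairs n) ≤ n.choose 2 := by
  classical
  have h1 : n.choose 2 = (powersetCard 2 (univ : Finset (Fin n))).card := by
    rw [card_powersetCard, card_univ, Fintype.card_fin]
  rw [h1, ← card_univ]
  refine card_le_card_of_injOn (fun e => {e.1.1, e.1.2}) ?_ ?_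
  · intro e _
    exact mem_coe.2 (mem_powersetCard.2 ⟨subset_univ _, card_pair (ne_of_lt e.2)⟩)
  · intro e _ f _ hef
    have h2 : ({e.1.1, e.1.2} : Finset (Fin n)) = {f.1.1, f.1.2} := hef
    have he := e.2
    have hf := f.2
    have a1 : e.1.1 ∈ ({f.1.1, f.1.2} : Finset (Fin n)) := h2 ▸ mem_insert_self _ _
    have a2 : e.1.2 ∈ ({f.1.1, f.1.2} : Finset (Fin n)) :=
      h2 ▸ mem_insert_of_mem (mem_singleton_self _)
    rw [mem_insert, mem_singleton] at a1 a2
    apply Subtype.ext
    rcases a1 with a1 | a1 <;> rcases a2 with a2 | a2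
    · rw [a1, a2] at he
      exact absurd he (lt_irrefl _)
    · exact Prod.ext a1 a2
    · rw [a1, a2] at he
      exact absurd (he.trans hf) (lt_irrefl _)
    · rw [a1, a2] at he
      exact absurd he (lt_irrefl _)

/-- **Every** property of graphs has such a reduction with `n.choose 2` questions and degree `1`. -/
theorem exists_all (K : Type) [Field K] (n v d : ℕ) (F : (Pairs n → Bool) → Bool) :
    ∃ A : Reduction K (Pairs n) v d, A.Bounded 2 1 (n.choose 2) ∧ ∀ x, A.eval x = F x := by
  classical
  have hmono : ∀ (q D : ℕ) (A : Reduction K (Pairs n) v d) (Q Q' : ℕ), Q ≤ Q' → A.Bounded q D Q →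
      A.Bounded q D Q' := by
    intro q D A
    induction A with
    | answer b => intro Q Q' _ _; simp [Reduction.Bounded]
    | ask φ t ih =>
      intro Q Q' hQ h
      cases Q with
      | zero => exact absurd h (by simp [Reduction.Bounded])
      | succ Q =>
        cases Q' with
        | zero => omega
        | succ Q' => exact ⟨h.1, fun b => ih b Q Q' (by omega) (h.2 b)⟩
  refine ⟨readAll K v d F (univ : Finset (Pairs n)).toList (fun _ => false), ?_, fun x => ?_⟩
  · refine hmono _ _ _ _ _ ?_ (readAll_bounded _ _ _)
    rw [length_toList, card_univ]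
    exact card_Pairs n
  · rw [readAll_eval]
    simp

end

section random

variable {K : Type} [Field K] [Fintype K] {n k : ℕ}

/-- the pairs in a set of vertices -/
def inside {n : ℕ} (S : Finset (Fin n)) : Finset (Pairs n) :=
  univ.filter fun e => e.1.1 ∈ S ∧ e.1.2 ∈ S

lemma card_inside {n : ℕ} (S : Finset (Fin n)) : (inside S).card ≤ S.card.choose 2 := by
  classical
  rw [← card_powersetCard]
  refine card_le_card_of_injOn (fun e => {e.1.1, e.1.2}) ?_ ?_
  · intro e he
    have h := (mem_filter.1 (mem_coe.1 he)).2
    refine mem_coe.2 (mem_powersetCard.2 ⟨?_, card_pair (ne_of_lt e.2)⟩)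
    intro i hi
    rw [mem_insert, mem_singleton] at hi
    rcases hi with rfl | rfl
    · exact h.1
    · exact h.2
  · intro e _ f _ hef
    have h2 : ({e.1.1, e.1.2} : Finset (Fin n)) = {f.1.1, f.1.2} := hef
    have he := e.2
    have hf := f.2
    have a1 : e.1.1 ∈ ({f.1.1, f.1.2} : Finset (Fin n)) := h2 ▸ mem_insert_self _ _
    have a2 : e.1.2 ∈ ({f.1.1, f.1.2} : Finset (Fin n)) :=
      h2 ▸ mem_insert_of_mem (mem_singleton_self _)
    rw [mem_insert, mem_singleton] at a1 a2
    apply Subtype.ext
    rcases a1 with a1 | a1 <;> rcases a2 with a2 | a2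
    · rw [a1, a2] at he
      exact absurd he (lt_irrefl _)
    · exact Prod.ext a1 a2
    · rw [a1, a2] at he
      exact absurd (he.trans hf) (lt_irrefl _)
    · rw [a1, a2] at he
      exact absurd he (lt_irrefl _)

/-- the combination of the clique monomials -/
noncomputable def combo (w : Sets n k → K) : MvPolynomial (Pairs n) K :=
  ∑ S : Sets n k, MvPolynomial.C (w S) * ∏ e ∈ inside S.1, MvPolynomial.X e

lemma combo_degree (w : Sets n k → K) : (combo w).totalDegree ≤ k.choose 2 := by
  unfold combo
  refine (MvPolynomial.totalDegree_finsetSum _ _).trans ?_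
  refine Finset.sup_le fun S _ => ?_
  refine (MvPolynomial.totalDegree_mul _ _).trans ?_
  rw [MvPolynomial.totalDegree_C, zero_add]
  refine (MvPolynomial.totalDegree_finsetProd _ _).trans ?_
  calc ∑ e ∈ inside S.1, (MvPolynomial.X e : MvPolynomial (Pairs n) K).totalDegree
      ≤ ∑ _e ∈ inside S.1, 1 := sum_le_sum fun e _ => by rw [MvPolynomial.totalDegree_X]
    _ = (inside S.1).card := by simp
    _ ≤ S.1.card.choose 2 := card_inside _
    _ = k.choose 2 := by rw [S.2]

open scoped Classical in
lemma combo_value (w : Sets n k → K) (x : Pairs n → Bool) :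
    value (combo w) x = ∑ S ∈ univ.filter (fun S : Sets n k => (graph x).IsClique S.1), w S := by
  unfold value combo
  rw [map_sum, sum_filter]
  refine sum_congr rfl fun S _ => ?_
  rw [map_mul, MvPolynomial.eval_C, map_prod]
  simp only [MvPolynomial.eval_X]
  split_ifs with h
  · rw [prod_eq_one, mul_one]
    intro e he
    have h1 := (mem_filter.1 he).2
    rcases h (mem_coe.2 h1.1) (mem_coe.2 h1.2) (ne_of_lt e.2) with ⟨h2, h3⟩ | ⟨h2, h3⟩
    · rw [if_pos h3]
    · exact absurd (h2.trans e.2) (lt_irrefl _)
  · obtain ⟨e, he, hx⟩ : ∃ e ∈ inside S.1, x e ≠ true := by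
      by_contra hcon
      push Not at hcon
      apply h
      intro i hi j hj hij
      rcases lt_or_gt_of_ne hij with h2 | h2
      · exact Or.inl ⟨h2, hcon ⟨(i, j), h2⟩ (mem_filter.2 ⟨mem_univ _, hi, hj⟩)⟩
      · exact Or.inr ⟨h2, hcon ⟨(j, i), h2⟩ (mem_filter.2 ⟨mem_univ _, hj, hi⟩)⟩
    rw [prod_eq_zero he (if_neg hx), mul_zero]

/-- few combinations vanish -/
lemma card_vanish {T : Type} [Fintype T] [DecidableEq T] [DecidableEq K] (C : Finset T)
    (hC : C.Nonempty) :
    Fintype.card K * Fintype.card {w : T → K // ∑ S ∈ C, w S = 0} ≤ Fintype.card (T → K) := by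
  obtain ⟨S₀, hS₀⟩ := hC
  rw [← Fintype.card_prod]
  refine Fintype.card_le_of_injective
    (fun p : K × {w : T → K // ∑ S ∈ C, w S = 0} =>
      fun S => p.2.1 S + if S = S₀ then p.1 else 0) ?_
  rintro ⟨a, w, hw⟩ ⟨b, w', hw'⟩ h
  have hs : ∀ (a : K) (w : T → K), ∑ S ∈ C, w S = 0 →
      ∑ S ∈ C, (w S + if S = S₀ then a else 0) = a := by
    intro a w hw
    rw [sum_add_distrib, hw, zero_add, sum_ite_eq' C S₀, if_pos hS₀]
  have h1 : a = b := by
    rw [← hs a w hw, ← hs b w' hw']
    exact sum_congr rfl fun S _ => congrFun h S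
  subst h1
  have h2 : w = w' := by
    funext S
    have := congrFun h S
    exact add_right_cancel this
  subst h2
  rfl

/-- **The other kind of error.** -/
theorem exists_random (K : Type) [Field K] [Fintype K] (n k t v d : ℕ) :
    ∃ (Ω : Type) (_ : Fintype Ω) (_ : Nonempty Ω) (A : Ω → Reduction K (Pairs n) v d),
      (∀ ω, (A ω).Bounded (Fintype.card K) (k.choose 2) t) ∧
      (∀ ω x, (graph x).CliqueFree k → (A ω).eval x = false) ∧
      ∀ x, ¬ (graph x).CliqueFree k →
        Fintype.card K ^ t * Nat.card {ω // (A ω).eval x = false} ≤ Nat.card Ω := by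
  classical
  refine ⟨Fin t → Sets n k → K, inferInstance, inferInstance,
    fun ω => chain K v d (List.ofFn fun i => combo (ω i)), ?_, ?_, ?_⟩
  · intro ω
    refine chain_bounded _ _ _ ?_ t (by simp)
    intro P hP
    rw [List.mem_ofFn] at hP
    obtain ⟨i, rfl⟩ := hP
    refine ⟨?_, combo_degree _⟩
    calc (Set.range (value (combo (ω i)))).ncard ≤ (Set.univ : Set K).ncard :=
          Set.ncard_le_ncard (Set.subset_univ _) Set.finite_univ
      _ = Fintype.card K := by rw [Set.ncard_univ, Nat.card_eq_fintype_card]
  · intro ω x hx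
    rw [chain_eval]
    intro P hP
    rw [List.mem_ofFn] at hP
    obtain ⟨i, rfl⟩ := hP
    rw [combo_value]
    refine sum_eq_zero fun S hS => ?_
    exact absurd ⟨(mem_filter.1 hS).2, S.2⟩ (hx S.1)
  · intro x hx
    rw [SimpleGraph.CliqueFree] at hx
    push Not at hx
    obtain ⟨S₀, hS₀⟩ := hx
    have hC : (univ.filter (fun S : Sets n k => (graph x).IsClique S.1)).Nonempty :=
      ⟨⟨S₀, hS₀.card_eq⟩, mem_filter.2 ⟨mem_univ _, hS₀.isClique⟩⟩
    have h1 := card_vanish (K := K) _ hC
    set C := univ.filter (fun S : Sets n k => (graph x).IsClique S.1) with hCdef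
    have h2 : Nat.card {ω : Fin t → Sets n k → K //
        (chain K v d (List.ofFn fun i => combo (ω i))).eval x = false} =
        Fintype.card {w : Sets n k → K // ∑ S ∈ C, w S = 0} ^ t := by
      have h3 : ∀ ω : Fin t → Sets n k → K,
          (chain K v d (List.ofFn fun i => combo (ω i))).eval x = false ↔
            ∀ i, ∑ S ∈ C, ω i S = 0 := by
        intro ω
        rw [chain_eval]
        constructor
        · intro h i
          have := h (combo (ω i)) (by rw [List.mem_ofFn]; exact ⟨i, rfl⟩)
          rwa [combo_value] at this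
        · intro h P hP
          rw [List.mem_ofFn] at hP
          obtain ⟨i, rfl⟩ := hP
          rw [combo_value]
          exact h i
      rw [Nat.card_congr (Equiv.subtypeEquivRight h3),
        Nat.card_congr (Equiv.subtypePiEquivPi (p := fun (_ : Fin t) (w : Sets n k → K) =>
          ∑ S ∈ C, w S = 0)), Nat.card_eq_fintype_card, Fintype.card_pi]
      simp
    rw [h2, ← mul_pow, Nat.card_eq_fintype_card, Fintype.card_pi, prod_const, card_univ,
      Fintype.card_fin]
    exact Nat.pow_le_pow_left h1 t

end random

end Pool.Agent.R617.LR
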